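import Pool.Agent.Y153.CT.RAM
import Pool.Agent.Y48.CT.SEL
import Pool.Agent.Y180.CT.Loc3
import Pool.Agent.Y155.CT.Act

/-!
# Project CTE: the descent for `y² + y = x³` over `ℚ(ω)`
-/

set_option autoImplicit false
set_option linter.unusedSectionVars false
set_option linter.unusedVariables false

open scoped Classical

namespace Pool.Agent.Y574.CTE

open WeierstrassCurve
open Pool.Agent.Y692.QS
open Pool.Agent.Y715.T.Gi Pool.Agent.Y715.T.Nr Pool.Agent.Y715.T.Df Pool.Agent.Y715.T.Ell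
open Pool.Agent.Y715.T.Red Pool.Agent.Y715.T.Thr
open Pool.Agent.Y715.T.Sel (fac kc_mul kc_one kc_congr kc_pow kc_cube kc_uniq kc_cancel kc_unit
  kc_exp ex_root root_ne iota_sq iota_ev odd_of not_dvd_of_unr resid_kc exists_emb3)
open Pool.Agent.Y703.CT
open Pool.Agent.Y180.CT (Kl mem_Kl Kl_le lam_mem ev_mem cube_val cube_val' st1_neg tau_u tau_g
  tau_X gg_im gg_jj gg_add_tt pow_cancel pow_three iota_ev')
open Pool.Agent.Y155.CT (dd dd_apply dd_dd dd_surj dd_ker dd_tt nsmul_tt T3 dd_T3 T3_eqn ah ah_apply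
  ah_im ah_dd ah_tt ah_T3 act_def Co co_cob a_mul a_cont ip_inj jj_tt)

/-! ### The place above three -/

section three

variable {I : PadicAlgCl 3}

lemma norm_unit (hI : I ^ 2 + I + 1 = 0) {v : Ei} (hv : IsUnit v) : ‖ev I hI v‖ = 1 := by
  refine le_antisymm (ev_le hI v) ?_
  obtain ⟨u', hu'⟩ := hv.exists_right_inv
  have h1 : ‖ev I hI v‖ * ‖ev I hI u'‖ = 1 := by
    rw [← norm_mul, ← map_mul, hu', map_one, norm_one]
  by_contra hcon
  push Not at hcon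
  have h2 := ev_le hI u'
  nlinarith [norm_nonneg (ev I hI v), norm_nonneg (ev I hI u')]

lemma norm_gen (hI : I ^ 2 + I + 1 = 0) {v : Ei} (hv : IsUnit v) (g : ℕ) :
    ‖ev I hI (v * lam ^ g)‖ ^ 2 = (3 : ℝ) ^ (-(g : ℤ)) := by
  have hl := norm_lam hI
  rw [map_mul, norm_mul, norm_unit hI hv, one_mul, map_pow, norm_pow, ev_lam, ← pow_mul,
    mul_comm g, pow_mul, hl, zpow_neg, zpow_natCast, inv_pow]

/-- the valuation of a generator -/
lemma three_dvd (hI : I ^ 2 + I + 1 = 0) {V : PadicAlgCl 3} {v : Ei} {g : ℕ} {m : ℤ} {ρ : ℝ}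
    (hv : IsUnit v) (hV : V ∈ Kl I) (hρ : ρ ^ 2 = (3 : ℝ) ^ (3 * m))
    (e : ‖V‖ ^ 3 = ‖ev I hI (v * lam ^ g)‖ * ρ) : 3 ∣ g := by
  have hV0 : V ≠ 0 := by
    rintro rfl
    have h1 := congrArg (· ^ 2) e
    simp only [norm_zero] at h1
    rw [mul_pow, norm_gen hI hv, hρ, zero_pow three_ne_zero, zero_pow two_ne_zero] at h1
    have : 0 < (3 : ℝ) ^ (-(g : ℤ)) * (3 : ℝ) ^ (3 * m) := by positivity
    exact this.ne h1
  obtain ⟨n, hn⟩ := val hI (Kl_le hV) hV0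
  have h1 : (3 : ℝ) ^ (3 * n) = (3 : ℝ) ^ (-(g : ℤ) + 3 * m) := by
    rw [zpow_add₀ (by norm_num), ← hρ, ← norm_gen hI hv, ← mul_pow, ← e, mul_comm, zpow_mul, ← hn]
    norm_cast
    ring
  have h2 := zpow_right_injective₀ (a := (3 : ℝ)) (by norm_num) (by norm_num) h1
  omega

/-- the valuation of the ordinate -/
lemma ord_val (hI : I ^ 2 + I + 1 = 0) {X Y : PadicAlgCl 3} (hX : X ∈ Kl I) (hY : Y ∈ Kl I)
    (hY0 : Y ≠ 0) (he : Y ^ 2 + Y = X ^ 3) : ∃ m : ℤ, ‖Y‖ ^ 2 = (3 : ℝ) ^ (3 * m) := by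
  rcases lt_trichotomy ‖Y‖ 1 with h1 | h1 | h1
  · refine cube_val hI hY hX hY0 ?_
    have h2 : ‖Y + 1‖ = 1 := by
      rw [add_comm, eq_of_lt, norm_one]
      rwa [norm_one]
    have e : X ^ 3 = Y * (Y + 1) := by rw [← he]; ring
    rw [← norm_pow, e, norm_mul, h2, mul_one]
  · exact ⟨0, by rw [h1]; norm_num⟩
  · refine cube_val' hI hY hX hY0 ?_
    have h2 : ‖Y ^ 2 + Y‖ = ‖Y‖ ^ 2 := by
      rw [eq_of_lt, norm_pow]
      rw [norm_pow]
      nlinarith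
    rw [← norm_pow X, ← he, h2]

end three

section loc

variable {i₀ : QB} {hi : i₀ ^ 2 + i₀ + 1 = 0} {u : QB} {a h : GK i₀ → ZMod 3}
  {ι : QB →ₐ[ℚ] PadicAlgCl 3} {R : Pt (PadicAlgCl 3)}

/-- **the local condition at three** -/
theorem core1 (hT : Tw hi 1 u a) {v : Ei} {g : ℕ} (hv : IsUnit v) (hK : Kc hi (v * lam ^ g) h)
    (hS : St1 hi ι a h R) : 3 ∣ g := by
  have hI := iota_sq' hi ι
  have hU3 : ι u ^ 3 = 1 := by
    rw [← map_pow, hT.cube, map_one, map_one]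
  -- the cube root
  obtain ⟨s, hs⟩ := IsAlgClosed.exists_pow_nat_eq (ev i₀ hi (v * lam ^ g)) (n := 3) (by norm_num)
  have hZ : ι s ^ 3 = ev (ι i₀) hI (v * lam ^ g) := by
    rw [← map_pow, hs, iota_ev' hi ι]
  have hts : ∀ (τ : Au 3) (σ : GK i₀), Cmp ι τ σ → τ (ι s) = ι i₀ ^ (h σ).val * ι s := by
    intro τ σ hc
    rw [hc, hK s hs σ, map_mul, map_pow]
  have hz0 : v * lam ^ g ≠ 0 := mul_ne_zero hv.ne_zero (pow_ne_zero _ prime_lam.ne_zero)
  have hZ0 : ι s ^ 3 ≠ 0 := by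
    rw [hZ]
    exact ev_ne hI hz0
  have hs0 : ι s ≠ 0 := fun h0 => hZ0 (by rw [h0, zero_pow three_ne_zero])
  have hZm : ι s ^ 3 ∈ Kl (ι i₀) := by rw [hZ]; exact ev_mem hI _
  by_cases hQ0 : R - im (isE _) hI R = 0
  · -- `R` is a multiple of `T`
    obtain ⟨c, hc⟩ := ker_tt hI hQ0
    have hm : ι s ∈ Kl (ι i₀) := by
      intro τ hτ
      obtain ⟨σ, hcm⟩ := exists_cmp ι τ hτ
      have h1 := hS τ σ hcm
      rw [hc, pm_tt, Pool.Agent.Y180.CT.jj_tt, sub_self] at h1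
      have h2 := tt_eq_zero.1 h1.symm
      rw [hts τ σ hcm, h2, ZMod.val_zero, pow_zero, one_mul]
    refine three_dvd hI hv hm (m := 0) (ρ := 1) (by norm_num) ?_
    rw [mul_one, ← norm_pow, hZ]
  · obtain ⟨x, y, hn, hR⟩ : ∃ x y, ∃ hn : (W0.baseChange (PadicAlgCl 3)).toAffine.Nonsingular x y,
        R = .some x y hn := by
      rcases R with _ | ⟨x, y, hn⟩
      · exfalso
        apply hQ0
        show (0 : Pt (PadicAlgCl 3)) - im (isE _) hI 0 = 0
        rw [map_zero, sub_zero]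
      · exact ⟨x, y, hn, rfl⟩
    have he := ((isE _).eqn x y).1 hn.1
    have hx : x ≠ 0 := by
      intro h0
      apply hQ0
      rw [hR, im_some, sub_eq_zero, Affine.Point.some.injEq]
      exact ⟨by rw [h0, mul_zero], rfl⟩
    obtain ⟨XQ, hnQ, eQ⟩ : ∃ XQ, ∃ hnQ : (W0.baseChange (PadicAlgCl 3)).toAffine.Nonsingular XQ
        (gg (ι i₀) R ^ 3), R - im (isE _) hI R = .some XQ _ hnQ := by
      rw [hR]
      obtain ⟨XQ, hnQ, eQ, -⟩ := one_sub_im (isE _) hI hn hx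
      exact ⟨XQ, hnQ, eQ⟩
    by_cases hG : gg (ι i₀) R = 0
    · -- `R - J R = T`
      have hlam := lam_ne (isE (PadicAlgCl 3)) hI
      have hy : y = ι i₀ ^ 2 := by
        rw [hR, gg_some, div_eq_zero_iff] at hG
        rcases hG with h1 | h1
        · exact sub_eq_zero.1 h1
        · exact absurd h1 (mul_ne_zero hlam hx)
      have h0 := (isE (PadicAlgCl 3)).neg_nons hn
      have hR' : -R = .some x (-y - 1) h0 := by
        rw [hR]
        exact (isE _).neg_eq hn h0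
      have hgg : gg (ι i₀) (-R) = 1 / x := by
        rw [hR', gg_some, hy, div_eq_div_iff (mul_ne_zero hlam hx) hx]
        linear_combination (-2 * x) * hI
      have hx3 : x ^ 3 = -1 := by
        rw [← he, hy]
        linear_combination (ι i₀ ^ 2 - ι i₀ + 1) * hI
      have hW3 : (ι u * gg (ι i₀) (-R)) ^ 3 = -1 := by
        rw [hgg, mul_pow, hU3, div_pow, hx3]
        norm_num
      have hm : ι s / (ι u * gg (ι i₀) (-R)) ∈ Kl (ι i₀) := by
        intro τ hτ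
        obtain ⟨σ, hcm⟩ := exists_cmp ι τ hτ
        rw [map_div₀, hts τ σ hcm, tau_g hT (st1_neg hS) hR' hx hcm]
        have h1 := pow_three hI (-h σ)
        rw [neg_neg] at h1
        rw [← h1, mul_div_mul_left]
        exact pow_ne_zero _ (I_ne (isE (PadicAlgCl 3)) hI)
      refine three_dvd hI hv hm (m := 0) (ρ := 1) (by norm_num) ?_
      rw [mul_one, ← norm_pow, div_pow, hW3, hZ, div_neg, div_one, norm_neg]
    · -- the general case
      obtain ⟨W, hW⟩ : ∃ W, W = ι u * gg (ι i₀) R := ⟨_, rfl⟩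
      have hu0 : ι u ≠ 0 := by
        intro h0
        rw [h0, zero_pow three_ne_zero] at hU3
        exact zero_ne_one hU3
      have hm : ι s * (ι u * gg (ι i₀) R) ∈ Kl (ι i₀) := by
        intro τ hτ
        obtain ⟨σ, hcm⟩ := exists_cmp ι τ hτ
        rw [map_mul, hts τ σ hcm, tau_g hT hS hR hx hcm]
        have h1 := pow_cancel hI (h σ)
        linear_combination (ι s * (ι u * gg (ι i₀) R)) * h1
      have hW0 : W ≠ 0 := by rw [hW]; exact mul_ne_zero hu0 hG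
      rw [← hW] at hm
      have hYm : W ^ 3 ∈ Kl (ι i₀) := by
        have e : W ^ 3 = (ι s * W) ^ 3 / ι s ^ 3 := by
          rw [mul_pow, mul_div_cancel_left₀ _ hZ0]
        rw [e]
        exact div_mem (pow_mem hm 3) hZm
      have hXm : ι u ^ 2 * XQ ∈ Kl (ι i₀) := tau_X hT hS eQ
      have heq := ((isE _).eqn _ _).1 hnQ.1
      have heY : (W ^ 3) ^ 2 + W ^ 3 = (ι u ^ 2 * XQ) ^ 3 := by
        rw [hW]
        linear_combination (ι u ^ 6) * heq - (gg (ι i₀) R) ^ 3 * (ι u ^ 3) * hU3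
      obtain ⟨m, hm2⟩ := ord_val hI hXm hYm (pow_ne_zero 3 hW0) heY
      refine three_dvd hI hv hm (m := m) (ρ := ‖W ^ 3‖) hm2 ?_
      rw [← norm_pow, mul_pow, norm_mul, hZ]

end loc

/-! ### The Selmer group -/

section sel

variable {i₀ : QB} {hi : i₀ ^ 2 + i₀ + 1 = 0} {u : QB} {a : GK i₀ → ZMod 3}

/-- no primes -/
def πe : Empty → Ei := fun x => x.elim

/-- no exponents -/
def ee : Empty → ZMod 3 := fun x => x.elim

lemma Dte : Dt πe ee := ⟨fun x => x.elim, fun x => x.elim, fun x => x.elim⟩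

lemma pDe : pD πe ee = 1 := by
  unfold pD
  rw [Finset.univ_eq_empty, Finset.prod_empty]

theorem sel (hT : Tw hi 1 u a) {h : GK i₀ → ZMod 3} (hc : IsLocallyConstant h)
    (hm : ∀ σ τ, h (σ * τ) = h σ + h τ)
    (hloc : ∀ (p : ℕ) [Fact p.Prime] (ι : QB →ₐ[ℚ] PadicAlgCl p), ∃ R, St1 hi ι a h R) :
    ∃ v : Ei, IsUnit v ∧ Kc hi v h := by
  obtain ⟨z, hz, hzh⟩ := kum hi h hc hm
  have hT' : Tw hi (pD πe ee) u a := by rw [pDe]; exact hT
  obtain ⟨v₀, g, x, hu, ez⟩ := fac (π := πe) z hz.1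
    (Pool.Agent.Y48.CT.SEL.support Dte hz hzh
      (fun p _ ι hp3 hpj τ σ hcc hτ => by
        obtain ⟨R, hR⟩ := hloc p ι
        exact (Pool.Agent.Y153.CTRAM.t_UNR Empty πe ee Dte i₀ hi u a hT' h p ι hp3 hpj R hR τ σ
          hcc hτ).2))
  rw [Finset.univ_eq_empty, Finset.prod_empty, mul_one] at ez
  rw [ez] at hzh
  obtain ⟨ι₃⟩ := exists_emb3
  obtain ⟨R, hR⟩ := hloc 3 ι₃
  obtain ⟨g', hg'⟩ := core1 hT hu hzh hR
  refine ⟨v₀, hu, kc_cancel (z' := lam ^ g') hu.ne_zero (pow_ne_zero _ prime_lam.ne_zero) ?_⟩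
  have e1 : v₀ * (lam ^ g') ^ 3 = v₀ * lam ^ g := by
    rw [hg', ← pow_mul, mul_comm g' 3]
  rw [e1]
  exact hzh

end sel

/-! ### The point `(-1, ω)` -/

section point

variable {i₀ : QB} {hi : i₀ ^ 2 + i₀ + 1 = 0} {u : QB} {a : GK i₀ → ZMod 3}

lemma a_zero (hT : Tw hi 1 u a) (σ : GK i₀) : a σ = 0 := by
  have h1 : u ^ 3 = (1 : QB) ^ 3 := by rw [hT.cube, map_one, one_pow]
  obtain ⟨n, hn⟩ := cube_eq hi h1
  have hu0 : u ≠ 0 := by
    rintro rfl
    rw [zero_pow three_ne_zero, one_pow] at h1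
    exact zero_ne_one h1
  have h2 : σ u = u := by rw [hn, map_mul, map_pow, gk_fix, map_one]
  have h3 := hT.act σ
  rw [h2] at h3
  have h4 : i₀ ^ (-a σ).val = i₀ ^ (0 : ZMod 3).val := by
    rw [ZMod.val_zero, pow_zero]
    exact mul_right_cancel₀ hu0 (by rw [one_mul]; exact h3.symm)
  have h5 := ip_inj (hi := hi) h4
  exact neg_eq_zero.1 h5

lemma ggp (σ : GK i₀) (P : Pt QB) : gg i₀ (pm (gh σ) P) = σ (gg i₀ P) := by
  rcases P with _ | ⟨x, y, hn⟩
  · show (0 : QB) = σ 0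
    rw [map_zero]
  · rw [pm_some, gg_some, gg_some, gh_apply, gh_apply, map_div₀, map_sub, map_mul, map_add,
      map_mul, map_pow, map_one, map_ofNat, gk_fix]

lemma pow_three' (hi : i₀ ^ 2 + i₀ + 1 = 0) (c : ZMod 3) : (i₀ ^ 2) ^ c.val = i₀ ^ (-c).val := by
  have hI3 : i₀ ^ 3 = 1 := by linear_combination (i₀ - 1) * hi
  rcases z3 c with rfl | rfl | rfl
  · rw [neg_zero, ZMod.val_zero, pow_zero, pow_zero]
  · have e2 : (-1 : ZMod 3).val = 2 := by decide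
    rw [e2, ZMod.val_one, pow_one]
  · have e2 : (-1 : ZMod 3).val = 2 := by decide
    rw [neg_neg, e2, ZMod.val_one, pow_one]
    linear_combination i₀ * hI3

/-- the class of the point `(-1, ω²)` -/
theorem kcT {R : Pt QB} (hR : dd hi R = T3 hi) {h : GK i₀ → ZMod 3}
    (hh : ∀ σ, pm (gh σ) R - R = tt QB (h σ)) : Kc hi (w ^ 2) (fun σ => -h σ) := by
  obtain ⟨x, y, hn, rfl⟩ : ∃ x y, ∃ hn : (W0.baseChange QB).toAffine.Nonsingular x y,
      R = .some x y hn := by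
    rcases R with _ | ⟨x, y, hn⟩
    · exfalso
      have h1 : dd hi (0 : Pt QB) = T3 hi := hR
      rw [map_zero] at h1
      exact Affine.Point.some_ne_zero _ h1.symm
    · exact ⟨x, y, hn, rfl⟩
  have he := ((isE _).eqn x y).1 hn.1
  have hx : x ≠ 0 := by
    intro h0
    have h1 : dd hi (Affine.Point.some x y hn : Pt QB) = 0 := by
      rw [dd_apply, im_some, sub_eq_zero, Affine.Point.some.injEq]
      exact ⟨by rw [h0, mul_zero], rfl⟩
    rw [hR] at h1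
    exact Affine.Point.some_ne_zero _ h1
  have hy : y ≠ 0 := by
    rintro rfl
    apply hx
    have : x ^ 3 = 0 := by rw [← he]; ring
    exact pow_eq_zero_iff three_ne_zero |>.1 this
  obtain ⟨XQ, hnQ, eQ, -⟩ := one_sub_im (isE _) hi hn hx
  have h1 : (Affine.Point.some XQ _ hnQ : Pt QB) = T3 hi := by
    rw [← hR, dd_apply]
    exact eQ.symm
  unfold T3 at h1
  rw [Affine.Point.some.injEq] at h1
  have h2 : gg i₀ (Affine.Point.some x y hn : Pt QB) ^ 3 = i₀ ^ 2 := h1.2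
  have hi0 : i₀ ≠ 0 := by
    rintro rfl
    norm_num at hi
  have hs0 : gg i₀ (Affine.Point.some x y hn : Pt QB) ≠ 0 := by
    intro h0
    rw [h0, zero_pow three_ne_zero] at h2
    exact pow_ne_zero 2 hi0 h2.symm
  refine kc_of hi hs0 ?_ fun σ => ?_
  · rw [h2, map_pow, ev_w]
  · rw [← ggp σ, sub_eq_iff_eq_add.1 (hh σ), add_comm, gg_add_tt hi hn hx hy, pow_three' hi]

end point

section steps

variable {i₀ : QB} {hi : i₀ ^ 2 + i₀ + 1 = 0} {u : QB} {a : GK i₀ → ZMod 3}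

lemma z3mul : ∀ n c : ZMod 3, 2 * n * -c = n * c := by decide

/-- cocycles with values in the kernel of `1 - ω` -/
theorem step0 (hT : Tw hi 1 u a) {f : GK i₀ → Pt QB} (hf : Co hi a f)
    (h0 : ∀ σ, dd hi (f σ) = 0) : ∃ P, ∀ σ, f σ = ah hi a σ P - P := by
  have haz := a_zero hT
  have hex : ∀ σ, ∃ c : ZMod 3, f σ = tt QB c := fun σ => dd_ker hi (h0 σ)
  choose h hh using hex
  have hcont : IsLocallyConstant h := by
    have e : h = (fun P : Pt QB =>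
        if hx : ∃ c : ZMod 3, P = tt QB c then hx.choose else 0) ∘ f := by
      ext1 σ
      show h σ = if hx : ∃ c : ZMod 3, f σ = tt QB c then hx.choose else 0
      have hx : ∃ c : ZMod 3, f σ = tt QB c := ⟨h σ, hh σ⟩
      rw [dif_pos hx]
      exact tt_inj ((hh σ).symm.trans hx.choose_spec)
    rw [e]
    exact hf.lc.comp _
  have hmul : ∀ σ τ, h (σ * τ) = h σ + h τ := by
    intro σ τ
    apply tt_inj (L := QB)
    rw [← hh, hf.co, hh σ, hh τ, ah_tt, tt_add]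
  obtain ⟨v, hv, hK⟩ := sel hT hcont hmul (by
    intro p _ ι
    obtain ⟨R, hR⟩ := hf.lo p ι
    refine ⟨R, fun τ σ hc => ?_⟩
    have h1 := hR τ σ hc
    rw [hh σ, pm_tt] at h1
    exact h1.symm)
  obtain ⟨ε, n, hε, rfl⟩ := unit_cases hv
  have hw0 : (w : Ei) ≠ 0 := by decide
  have hK1 : Kc hi (w ^ n.val) h := kc_unit (pow_ne_zero _ hw0) hε hK
  -- the point
  obtain ⟨R, hR⟩ := dd_surj hi (T3 hi)
  have hex2 : ∀ σ, ∃ c : ZMod 3, ah hi a σ R - R = tt QB c := fun σ => dd_ker hi (by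
    rw [map_sub, ← ah_dd, hR, ah_T3, haz σ, tt_zero, sub_zero, sub_self])
  choose k hk using hex2
  have hk' : ∀ σ, pm (gh σ) R - R = tt QB (k σ) := by
    intro σ
    rw [← hk σ, ah_apply, act_def, haz σ]
    rfl
  have hK2 := kcT hR hk'
  have hK3 := kc_pow (pow_ne_zero 2 hw0) hK2 (2 * n.val)
  have e1 : ((w : Ei) ^ 2) ^ (2 * n.val) = w ^ n.val * (w ^ n.val) ^ 3 := by
    rw [← pow_mul, ← pow_mul, ← pow_add]
    congr 1
    ring
  rw [e1] at hK3
  have hK4 := kc_cancel (pow_ne_zero _ hw0) (pow_ne_zero _ hw0) hK3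
  have hhk : ∀ σ, h σ = n * k σ := by
    intro σ
    have h1 := kc_uniq (pow_ne_zero _ hw0) hK1 hK4 σ
    rw [h1]
    push_cast
    rw [ZMod.natCast_zmod_val]
    exact z3mul n (k σ)
  refine ⟨n.val • R, fun σ => ?_⟩
  rw [map_nsmul, ← smul_sub, hk σ, nsmul_tt, ZMod.natCast_zmod_val, hh σ, hhk σ]

theorem step1 (hT : Tw hi 1 u a) {f : GK i₀ → Pt QB} (hf : Co hi a f)
    (h : ∃ P, ∀ σ, dd hi (f σ) = ah hi a σ P - P) : ∃ P, ∀ σ, f σ = ah hi a σ P - P := by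
  have ha := a_mul one_ne_zero hT
  have hc := a_cont one_ne_zero hT
  obtain ⟨P, hP⟩ := h
  obtain ⟨R, rfl⟩ := dd_surj hi P
  obtain ⟨Q, hQ⟩ := step0 hT (hf.sub (co_cob ha hc R)) (fun σ => by
    rw [map_sub, hP, map_sub, ah_dd, sub_self])
  refine ⟨R + Q, fun σ => ?_⟩
  have h1 : f σ = (ah hi a σ R - R) + (ah hi a σ Q - Q) := by
    rw [← hQ σ]
    abel
  rw [h1, map_add]
  abel

theorem step2 (hT : Tw hi 1 u a) {f : GK i₀ → Pt QB} (hf : Co hi a f)
    (h : ∃ P, ∀ σ, 3 • f σ = ah hi a σ P - P) : ∃ P, ∀ σ, f σ = ah hi a σ P - P := by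
  apply step1 hT hf
  apply step1 hT hf.dd
  obtain ⟨P, hP⟩ := h
  refine ⟨-im (isE QB) hi P, fun σ => ?_⟩
  rw [dd_dd, hP σ, map_sub, map_neg, ah_im]
  abel

theorem step3 (hT : Tw hi 1 u a) (n : ℕ) : ∀ {f : GK i₀ → Pt QB}, Co hi a f →
    (∃ P, ∀ σ, 3 ^ n • f σ = ah hi a σ P - P) → ∃ P, ∀ σ, f σ = ah hi a σ P - P := by
  induction n with
  | zero =>
    rintro f hf ⟨P, hP⟩
    exact ⟨P, fun σ => by rw [← hP σ, pow_zero, one_smul]⟩
  | succ n ih =>
    rintro f hf ⟨P, hP⟩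
    apply step2 hT hf
    apply ih (hf.nsmul 3)
    refine ⟨P, fun σ => ?_⟩
    rw [← hP σ, smul_smul, pow_succ]

theorem shK (hT : Tw hi 1 u a) : ShK hi a := by
  intro n f hf1 hf2 hf3 hf4
  exact step3 hT n ⟨hf1, hf2, hf3⟩ hf4

end steps

end Pool.Agent.Y574.CTE
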