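import Pool.Agent.Y696.CTE.Stm
import Pool.Agent.Y891.CTK.Sht
import Pool.Agent.Y737.CTK.Trf
import Pool.Agent.Y574.CTE.Sel

/-!
# Project CTE: the Tate-Shafarevich group of `y² + y = x³` over `ℚ(ω)`
-/

set_option autoImplicit false

open scoped Classical

namespace Pool.Agent.Y574.CTE

open NumberField
open Pool.Agent.Y696.CTK (ED)

theorem sh1 : Pool.Agent.Y696.CTE.S_SH1 := by
  intro K _ _ j n x hx
  have e : ((j 1 : 𝓞 K) : K) = 1 := by rw [map_one]; rfl
  have key := Pool.Agent.Y891.CTK.sht Pool.Agent.Y737.CTK.trf K j 1 one_ne_zero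
    (fun i₀ hi u a hT => shK hT)
  rw [e] at key
  exact key n x hx

end Pool.Agent.Y574.CTE
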